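import Mathlib
import Pool.Agent.W25.UN.Stm2

/-! Project UN, subtask UN-WE: the weights coincide on primes. -/

set_option autoImplicit false

namespace Pool.Agent.W143.UN.WE

open Finset Filter Topology
open Pool.Agent.H410R2 hiding GP GP_prof GP_cut_some GP_cut_none GP_lip gg_pos gg_le_one gg_anti ee_bound ee_nonneg gg_lip LB_gg LB_ee Sums exists_sums yx wx wxi Br sum_GP_none sum_GP_some sum_GP_some_ee sum_GP_some_one sum_GPr_none sum_GPr_some S1_final QI_final S2_final w_abs_le wmax gg ee I1 I2 IE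
open Pool.Agent.H361R2.GM
open Pool.Agent.H362R2.CM
open Pool.Agent.W25.UN

variable {k : ℕ}

theorem wIZ_congr (u w u' w' : Option (Fin k) → ℤ) (P : Finset ℕ) (i : Fin k)
    (y : (IP P → Option (Option (Fin k))) → ℝ) (n n' : ℕ)
    (h : ∀ l, LZ u w l n = LZ u' w' l n') : wIZ u' w' P i y n' = wIZ u w P i y n := by
  unfold wIZ
  refine Finset.sum_congr rfl fun σ _ => ?_
  congr 1
  unfold hNI
  refine Finset.prod_congr rfl fun t _ => ?_
  rcases σ t with _ | j
  · rfl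
  · simp [hlI, h j]

theorem wIZ_eq_aux (Q : SPar) (u w : Option (Fin k) → ℤ) (P : Finset ℕ) (L : ℝ) (i : Fin k)
    (n : ℕ) (h : ∀ t : IP P, ¬ prP P t ∣ LZ u w (some i) n) :
    wIZ u w P i (yP Q k P L) n = wZ Q u w P L n := by
  unfold wIZ wZ
  refine Finset.sum_congr rfl fun σ _ => ?_
  congr 1
  unfold hNI hN
  refine Finset.prod_congr rfl fun t _ => ?_
  rcases σ t with _ | j
  · rfl
  · by_cases hj : j = some i
    · subst hj
      have : ¬ prP P t ∣ LZ u w (some i) n := h t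
      simp [hlI, hl, this]
    · simp [hlI, hl, hj]

theorem wIZ_z_eq (Q : SPar) (u w : Option (Fin k) → ℤ) (P : Finset ℕ) (hP : ∀ p ∈ P, 2 ≤ p)
    (L Λ : ℝ) (hΛ : 0 ≤ Λ) (i j : Fin k) (hij : i ≠ j) (n : ℕ)
    (h : ∀ t : IP P, ¬ prP P t ∣ LZ u w (some j) n) :
    wIZ u w P i (zP Q k P L Λ j) n = wIZ u w P i (yP Q k P L) n := by
  unfold wIZ zP
  apply sum_ymod (some i) (some j) (fun h => hij (Option.some_inj.1 h).symm) (prP P)
    (fun t => hP t.1 t.2) (LZ u w) n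
  · intro t
    exact h t
  · intro ρ hρ
    exact (YY_uj_pos (some j) (prP P) (fun t => hP t.1 t.2) Λ hΛ ρ hρ).ne'

/-- UN-WE -/
theorem main : WEq := by
  intro k Q u w u' w' P L Λ n n' i j hP hΛ hij h hi
  have hi' : ∀ t : IP P, ¬ prP P t ∣ LZ u w (some i) n := fun t => hi t.1 t.2
  refine ⟨?_, fun hj => ?_⟩
  · rw [wIZ_congr u w u' w' P i _ n n' h, wIZ_eq_aux Q u w P L i n hi']
  · have hj' : ∀ t : IP P, ¬ prP P t ∣ LZ u w (some j) n := fun t => hj t.1 t.2
    rw [wIZ_congr u w u' w' P i _ n n' h, wIZ_z_eq Q u w P hP L Λ hΛ i j hij n hj',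
      wIZ_eq_aux Q u w P L i n hi']

end Pool.Agent.W143.UN.WE
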